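import Pool.Agent.H.MP_6659bd_lc.C

namespace Pool.Agent.Results.MP_6659bd_lc.Poly

open Pool.Agent.Lib.CX Pool.Agent.H.MP_6659bd_lc

theorem result : (∃ f : Gr × List (List ℕ) → Bool, PT f ∧ ∀ a, ChordalBip a.1.G → (List3 a ↔ f a = true)) ∧
    ∃ f : Gr × List (Option ℕ) → Bool, PT f ∧ ∀ a, ChordalBip a.1.G → (Pre3 a ↔ f a = true) := by
  refine ⟨⟨ans, PT.ans, fun _ => ans_iff⟩, fun a => ans (a.1, (List.range a.1.n).map fun u =>
    ((a.2.getD u none).map fun k => [k]).getD [0, 1, 2]), PT.ans.comp (by fun_prop), fun a h => ?_⟩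
  rw [← ans_iff h]
  refine exists_congr fun c => forall_congr' fun u => ?_
  have := (c u).2
  rw [List.getD_eq_getElem _ [] (by simp), List.getElem_map, List.getElem_range]
  cases a.2.getD u.1 none with
  | none => simp only [Option.map_none, Option.getD_none, List.mem_cons, List.not_mem_nil, reduceCtorEq, false_imp_iff,
      implies_true, true_iff]; omega
  | some k => simp

end Pool.Agent.Results.MP_6659bd_lc.Poly
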